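import Mathlib
import Pool.Agent.H710R2.DP.Defs
import Pool.Agent.H710R2.DP.Defs2
import Pool.Agent.H710R2.DP.Tasks

/-! An algebra with matrix units is a matrix algebra over the relative commutant. -/

open scoped ComplexOrder InnerProductSpace ComplexConjugate
open Finset

noncomputable section

namespace H710R2.DP

open H759R2.Kad

namespace R2

variable {B : Type} [CStarAlgebra B] {L : ℕ}

/-- Matrix units. -/
structure MUn (e : Fin L → Fin L → B) : Prop where
  mul_eq : ∀ i j k, e i j * e j k = e i k
  mul_ne : ∀ i j k l, j ≠ k → e i j * e k l = 0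
  st : ∀ i j, star (e i j) = e j i
  one : ∑ i, e i i = 1

/-- Coefficients. -/
def cf (e : Fin L → Fin L → B) (x : B) (i j : Fin L) : B :=
  ∑ r, e r i * x * e j r

theorem cf_comm {e : Fin L → Fin L → B} (he : MUn e) (x : B) (i j k l : Fin L) :
    e k l * cf e x i j = cf e x i j * e k l := by
  rw [cf, mul_sum, sum_mul]
  rw [Finset.sum_eq_single l, Finset.sum_eq_single k]
  · rw [mul_assoc (e k i * x), he.mul_eq, ← mul_assoc, ← mul_assoc, he.mul_eq]
  · intro r _ hr
    rw [mul_assoc (e r i * x), he.mul_ne _ _ _ _ hr, mul_zero]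
  · simp
  · intro r _ hr
    rw [← mul_assoc, ← mul_assoc, he.mul_ne _ _ _ _ hr.symm, zero_mul, zero_mul]
  · simp

theorem cf_mul {e : Fin L → Fin L → B} (he : MUn e) (x y : B) (i j : Fin L) :
    cf e (x * y) i j = ∑ k, cf e x i k * cf e y k j := by
  have h1 : ∀ k, cf e x i k * cf e y k j = ∑ r, e r i * x * e k k * y * e j r := by
    intro k
    rw [cf, cf, sum_mul]
    refine Finset.sum_congr rfl fun r _ => ?_
    rw [mul_sum, Finset.sum_eq_single r]
    · rw [show e r i * x * e k r * (e r k * y * e j r) = e r i * x * (e k r * e r k) * y * e j r by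
        simp only [mul_assoc], he.mul_eq]
    · intro s _ hs
      rw [show e r i * x * e k r * (e s k * y * e j s) = e r i * x * (e k r * e s k) * y * e j s by
        simp only [mul_assoc], he.mul_ne _ _ _ _ hs.symm]
      simp
    · simp
  simp only [h1]
  rw [Finset.sum_comm, cf]
  refine Finset.sum_congr rfl fun r _ => ?_
  rw [← sum_mul, ← sum_mul, ← mul_sum, he.one]
  simp only [mul_assoc, one_mul]

theorem cf_star {e : Fin L → Fin L → B} (he : MUn e) (x : B) (i j : Fin L) :
    star (cf e x j i) = cf e (star x) i j := by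
  rw [cf, cf, star_sum]
  refine Finset.sum_congr rfl fun r _ => ?_
  rw [star_mul, star_mul, he.st, he.st, mul_assoc]

theorem cf_add (e : Fin L → Fin L → B) (x y : B) (i j : Fin L) :
    cf e (x + y) i j = cf e x i j + cf e y i j := by
  simp only [cf, mul_add, add_mul, sum_add_distrib]

theorem cf_smul (e : Fin L → Fin L → B) (c : ℂ) (x : B) (i j : Fin L) :
    cf e (c • x) i j = c • cf e x i j := by
  simp only [cf, mul_smul_comm, smul_mul_assoc, smul_sum]

theorem cf_rec {e : Fin L → Fin L → B} (he : MUn e) (x : B) :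
    ∑ i, ∑ j, cf e x i j * e i j = x := by
  have h1 : ∀ i j, cf e x i j * e i j = e i i * x * e j j := by
    intro i j
    rw [cf, sum_mul, Finset.sum_eq_single i]
    · rw [mul_assoc, he.mul_eq]
    · intro r _ hr
      rw [mul_assoc, he.mul_ne _ _ _ _ hr, mul_zero]
    · simp
  simp only [h1]
  simp only [← mul_sum, he.one, mul_one]
  rw [← sum_mul, he.one, one_mul]

theorem cf_inv {e : Fin L → Fin L → B} (he : MUn e) (a : Fin L → Fin L → B)
    (ha : ∀ i j k l, e i j * a k l = a k l * e i j) (i j : Fin L) :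
    cf e (∑ k, ∑ l, a k l * e k l) i j = a i j := by
  rw [cf]
  have h1 : ∀ r, e r i * (∑ k, ∑ l, a k l * e k l) * e j r = a i j * e r r := by
    intro r
    rw [mul_sum, sum_mul, Finset.sum_eq_single i]
    · rw [mul_sum, sum_mul, Finset.sum_eq_single j]
      · rw [← mul_assoc, ha, mul_assoc (a i j), he.mul_eq, mul_assoc, he.mul_eq]
      · intro l _ hl
        rw [← mul_assoc, ha, mul_assoc (a i l), he.mul_eq, mul_assoc, he.mul_ne _ _ _ _ hl,
          mul_zero]
      · simp
    · intro k _ hk
      rw [mul_sum, sum_mul]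
      refine Finset.sum_eq_zero fun l _ => ?_
      rw [← mul_assoc, ha, mul_assoc (a k l), he.mul_ne _ _ _ _ hk.symm, mul_zero, zero_mul]
    · simp
  simp only [h1]
  rw [← mul_sum, he.one, mul_one]

/-- The isomorphism. -/
def iso {e : Fin L → Fin L → B} (he : MUn e) (N : StarSubalgebra ℂ B)
    (hN : ∀ b, b ∈ N ↔ ∀ i j, e i j * b = b * e i j) :
    B ≃⋆ₐ[ℂ] CStarMatrix (Fin L) (Fin L) N where
  toFun x := CStarMatrix.ofMatrix fun i j => ⟨cf e x i j, (hN _).2 (cf_comm he x i j)⟩
  invFun a := ∑ i, ∑ j, (a i j : B) * e i j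
  left_inv x := cf_rec he x
  right_inv a := by
    refine CStarMatrix.ext fun i j => Subtype.ext ?_
    exact cf_inv he (fun i j => (a i j : B))
      (fun i j k l => (hN _).1 (a k l).2 i j) i j
  map_mul' x y := by
    refine CStarMatrix.ext fun i j => Subtype.ext ?_
    rw [CStarMatrix.mul_apply]
    have := cf_mul he x y i j
    simpa using this
  map_add' x y := by
    exact CStarMatrix.ext fun i j => Subtype.ext (cf_add e x y i j)
  map_star' x := by
    refine CStarMatrix.ext fun i j => ?_
    rw [CStarMatrix.star_apply]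
    exact Subtype.ext (cf_star he x i j).symm
  map_smul' c x := by
    exact CStarMatrix.ext fun i j => Subtype.ext (cf_smul e c x i j)

end R2

theorem dp_mat : R_mat := by
  intro B _ L e hL hs hm h1 N hN
  refine ⟨R2.iso (e := e) ⟨?_, ?_, hs, h1⟩ N hN⟩
  · intro i j k
    rw [hm, if_pos rfl]
  · intro i j k l hjk
    rw [hm, if_neg hjk]

end H710R2.DP
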